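import Pool.Agent.H20.LAR.Fib
import Pool.Agent.H27.LG.Descent
import Pool.Agent.H25.LS.Small

/-! MP_6b5a9a_nt: board lar_modules, row FIN. -/

set_option autoImplicit false

open AlgebraicGeometry CategoryTheory Polynomial
open scoped MonObj TensorProduct
open Pool.H27.LG2 Pool.Agent.H29.LA

noncomputable section

namespace Pool.Agent.H20.LAR

/-- FIN. -/
theorem pf_FIN (hABS : T_ABS) (hNTF : T_NTF) (hFLD : T_FLD) (hDSC : T_DSC) : T_FIN := by
  classical
  intro F _ _ A _ _ _ _ m Γ hfg hchar hm hmF hrec hΓ hodd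
  obtain ⟨f, h, δ, x₀, z₀, x₁, Z, hmon, hdeg, hfib, hsm, hh0, hh1, hZ, hZc, hne, hD⟩ := hrec
  have hRam : Ram m f x₀ z₀ := ⟨hmon, hdeg, hfib, hsm⟩
  obtain ⟨L, hL, hfL, hLδ⟩ := hFLD F (SeparableClosure F) A f h δ
  have hfin : ∀ p : ℕ, p.Prime → (p : SeparableClosure F) = 0 →
      {P : SpecOver F (SeparableClosure F) ⟶ A | P ^ p = 1}.Finite := by
    intro p hp hp0
    apply hchar p hp
    have h1 : (p : SeparableClosure F) = algebraMap F (SeparableClosure F) p :=
      (map_natCast _ _).symm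
    rw [h1] at hp0
    exact (_root_.map_eq_zero _).1 hp0
  obtain ⟨-, hsep1⟩ := fib_card f m hmon hdeg x₁ Z hZ hZc
  have hfpos : 0 < f.natDegree := by omega
  have hdisc : f.discr ≠ 0 := by
    intro h0
    have h1 := ((hDSC.1 (SeparableClosure F) f hmon hfpos).1 x₁).mpr hsep1
    rw [h0, eval_zero] at h1
    exact h1 rfl
  obtain ⟨V, hV⟩ := Pool.Agent.H25.LS.exists_nontrivial_valuation F (SeparableClosure F) hfg
  let ψ : SeparableClosure F → SeparableClosure F → Pool.H27.LG.Pts A (SeparableClosure F) :=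
    fun x z => Additive.ofMul (val δ x z)
  have hψ : ∀ g ∈ L.fixingSubgroup, ∀ x z : SeparableClosure F, (fib f x).eval z = 0 →
      ψ (g x) (g z) = g • ψ x z := by
    intro g hg x z hz
    rw [Pool.H27.LG.smul_def]
    exact congrArg Additive.ofMul (hLδ g hg x z hz).symm
  obtain ⟨c, hc, hcnt⟩ := hNTF F (SeparableClosure F) V.ValueGroup V.valuation A m f h δ x₀ z₀ x₁ Z
    hfin hm hRam hh0 hh1 hZ hZc hne
  have key := hABS F (SeparableClosure F) m f x₀ z₀ L (Pool.H27.LG.Pts A (SeparableClosure F)) ψ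
    V.ValueGroup V.valuation Γ hfg hm hmF hRam hdisc hD hL hfL
    (Pool.H27.LG.disc A (SeparableClosure F)) hψ hV
    ⟨c, hc, by
      intro x hx hvx Z' O hZ' hO hOne N hN heq
      refine hcnt x hx hvx Z' O hZ' hO hOne N hN ?_
      have h1 : N • (m • ∑ z ∈ O, ψ x z) =
          Additive.ofMul (((∏ z ∈ O, val δ x z) ^ m) ^ N) := by
        rw [ofMul_pow, ofMul_pow, ofMul_prod]
      have h2 : N • (O.card • ∑ z ∈ Z', ψ x z) =
          Additive.ofMul (((∏ z ∈ Z', val δ x z) ^ O.card) ^ N) := by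
        rw [ofMul_pow, ofMul_pow, ofMul_prod]
      rw [h1, h2] at heq
      exact Additive.ofMul.injective heq⟩ hΓ hodd
  exact Pool.H27.LG.rank_transfer Γ key

end Pool.Agent.H20.LAR
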