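import Pool.Agent.H29.LA.Targets

/-! MP_6b5a9a_nt: the fibres of a plane curve. -/

set_option autoImplicit false

open AlgebraicGeometry CategoryTheory Polynomial
open scoped MonObj TensorProduct
open Pool.H27.LG2 Pool.Agent.H29.LA

noncomputable section

namespace Pool.Agent.H20.LAR

section Fib

variable {K : Type} [Field K] (f : K[X][X])

theorem fib_monic (hf : f.Monic) (x : K) : (fib f x).Monic := hf.map _

theorem fib_natDegree (hf : f.Monic) (x : K) : (fib f x).natDegree = f.natDegree :=
  hf.natDegree_map _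

/-- a fibre with `m` distinct points -/
theorem fib_card (m : ℕ) (hf : f.Monic) (hd : f.natDegree = m) (x : K) (Z : Finset K)
    (hZ : ∀ z, z ∈ Z ↔ (fib f x).eval z = 0) (hc : Z.card = m) :
    (fib f x).Splits ∧ (fib f x).Separable := by
  classical
  have hne : fib f x ≠ 0 := (fib_monic f hf x).ne_zero
  have h1 : Z = (fib f x).roots.toFinset := by
    ext z
    rw [hZ, Multiset.mem_toFinset, mem_roots hne]
    rfl
  have h2 : Z.card ≤ Multiset.card (fib f x).roots := by
    rw [h1]; exact Multiset.toFinset_card_le _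
  have h3 : Multiset.card (fib f x).roots ≤ (fib f x).natDegree := card_roots' _
  have h5 := fib_natDegree f hf x
  have h4 : Multiset.card (fib f x).roots = (fib f x).natDegree := by
    omega
  have hs : (fib f x).Splits := splits_iff_card_roots.mpr h4
  refine ⟨hs, (nodup_roots_iff_of_splits hne hs).mp ?_⟩
  rw [← Multiset.toFinset_card_eq_card_iff_nodup, ← h1]
  omega

theorem fib_prod (m : ℕ) {R : Type} [CommRing R] [Algebra K[X] R] (y : Fin m → R)
    (hy : f.map (algebraMap K[X] R) = ∏ i, (X - C (y i))) (x : K) (φ : R →+* K)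
    (hφ : ∀ p : K[X], φ (algebraMap K[X] R p) = p.eval x) :
    fib f x = ∏ i, (X - C (φ (y i))) := by
  have h1 : φ.comp (algebraMap K[X] R) = evalRingHom x := RingHom.ext hφ
  have h2 := congrArg (Polynomial.map φ) hy
  rw [Polynomial.map_map, h1, Polynomial.map_prod] at h2
  rw [fib, h2]
  refine Finset.prod_congr rfl fun i _ => ?_
  rw [Polynomial.map_sub, map_X, map_C]

theorem fib_root (m : ℕ) {R : Type} [CommRing R] [Algebra K[X] R] (y : Fin m → R)
    (hy : f.map (algebraMap K[X] R) = ∏ i, (X - C (y i))) (x : K) (φ : R →+* K)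
    (hφ : ∀ p : K[X], φ (algebraMap K[X] R p) = p.eval x) (z : K) :
    (fib f x).eval z = 0 ↔ ∃ i, φ (y i) = z := by
  rw [fib_prod f m y hy x φ hφ, eval_prod, Finset.prod_eq_zero_iff]
  constructor
  · rintro ⟨i, -, hi⟩
    rw [eval_sub, eval_X, eval_C, sub_eq_zero] at hi
    exact ⟨i, hi.symm⟩
  · rintro ⟨i, rfl⟩
    exact ⟨i, Finset.mem_univ i, by rw [eval_sub, eval_X, eval_C, sub_self]⟩

theorem fib_inj (m : ℕ) {R : Type} [CommRing R] [Algebra K[X] R] (y : Fin m → R)
    (hy : f.map (algebraMap K[X] R) = ∏ i, (X - C (y i))) (x : K) (φ : R →+* K)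
    (hφ : ∀ p : K[X], φ (algebraMap K[X] R p) = p.eval x) (hs : (fib f x).Separable) :
    Function.Injective (fun i => φ (y i)) := by
  rw [fib_prod f m y hy x φ hφ] at hs
  exact separable_prod_X_sub_C_iff.mp hs

end Fib

end Pool.Agent.H20.LAR
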