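import Pool.Agent.H20.LAR.Fib
import Pool.Agent.H27.LG.Curve

/-! MP_6b5a9a_nt: board lar_modules, row NTF. -/

set_option autoImplicit false

open AlgebraicGeometry CategoryTheory Polynomial
open scoped MonObj TensorProduct
open Pool.H27.LG2 Pool.Agent.H29.LA

noncomputable section

namespace Pool.Agent.H20.LAR

/-- composition with a morphism is a homomorphism of groups -/
def spc {F : Type} [Field F] {A : Over (Spec (.of F))} [GrpObj A] [IsCommMonObj A] {R S : Type}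
    [CommRing R] [CommRing S] [Algebra F R] [Algebra F S] (g : R →ₐ[F] S) :
    (SpecOver F R ⟶ A) →* (SpecOver F S ⟶ A) where
  toFun d := specMap g ≫ d
  map_one' := MonObj.comp_one _
  map_mul' _ _ := MonObj.comp_mul _ _ _

theorem exists_theta {F Ω R : Type} [Field F] [Field Ω] [Algebra F Ω] [CommRing R] [Algebra Ω R]
    [Algebra F R] [IsScalarTower F Ω R] (g : R) (φ : R →ₐ[Ω] Ω) (hg : φ g ≠ 0) :
    ∃ θ : Localization.Away g →ₐ[F] Ω,
      ∀ r, θ (algebraMap R (Localization.Away g) r) = φ r := by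
  refine ⟨IsLocalization.liftAlgHom (M := Submonoid.powers g) (f := φ.restrictScalars F) ?_, ?_⟩
  · rintro ⟨_, n, rfl⟩
    change IsUnit (φ (g ^ n))
    rw [map_pow]
    exact (Ne.isUnit hg).pow n
  · intro r
    rw [IsLocalization.liftAlgHom_apply]
    exact IsLocalization.lift_eq _ _

theorem adjoin_u {Ω : Type} [Field Ω] (m : ℕ) (x₀ z₀ : Ω) (R : Type) [CommRing R]
    [Algebra (Polynomial Ω) R] [Algebra Ω R] [IsScalarTower Ω (Polynomial Ω) R] (y : Fin m → R)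
    (had : Algebra.adjoin (Polynomial Ω) (Set.range y) = ⊤) (u : Option (Fin m) → R)
    (hu0 : u none = algebraMap (Polynomial Ω) R (X - C x₀))
    (hu1 : ∀ i, u (some i) = y i - algebraMap Ω R z₀) :
    Algebra.adjoin Ω (Set.range u) = ⊤ := by
  set S := Algebra.adjoin Ω (Set.range u) with hS
  have hC : ∀ a : Ω, algebraMap (Polynomial Ω) R (C a) = algebraMap Ω R a := by
    intro a
    rw [IsScalarTower.algebraMap_apply Ω (Polynomial Ω) R]
    rfl
  have hCS : ∀ a : Ω, algebraMap (Polynomial Ω) R (C a) ∈ S := by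
    intro a
    rw [hC]
    exact S.algebraMap_mem a
  have hX : algebraMap (Polynomial Ω) R X ∈ S := by
    have h1 : u none ∈ S := Algebra.subset_adjoin ⟨none, rfl⟩
    have h2 := S.add_mem h1 (hCS x₀)
    rw [hu0, ← map_add, sub_add_cancel] at h2
    exact h2
  have hp : ∀ p : Polynomial Ω, algebraMap (Polynomial Ω) R p ∈ S := by
    intro p
    induction p using Polynomial.induction_on' with
    | add p q hp hq => rw [map_add]; exact S.add_mem hp hq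
    | monomial n a =>
      rw [← C_mul_X_pow_eq_monomial, map_mul, map_pow]
      exact S.mul_mem (hCS a) (S.pow_mem hX n)
  have hy : ∀ i, y i ∈ S := by
    intro i
    have h1 : u (some i) ∈ S := Algebra.subset_adjoin ⟨some i, rfl⟩
    have h2 := S.add_mem h1 (S.algebraMap_mem z₀)
    rw [hu1, sub_add_cancel] at h2
    exact h2
  rw [eq_top_iff]
  intro r _
  have hr : r ∈ Algebra.adjoin (Polynomial Ω) (Set.range y) := by
    rw [had]; trivial
  induction hr using Algebra.adjoin_induction with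
  | mem x hx =>
    obtain ⟨i, rfl⟩ := hx
    exact hy i
  | algebraMap p => exact hp p
  | add a b _ _ ha hb => exact S.add_mem (ha trivial) (hb trivial)
  | mul a b _ _ ha hb => exact S.mul_mem (ha trivial) (hb trivial)

theorem ntf_main (hDSC : T_DSC) (hHOM : T_HOM) (hEVA : T_EVA) (hNTR : T_NTR) (hNEA : T_NEA)
    (F Ω : Type) [Field F] [Field Ω] [Algebra F Ω] [IsSepClosed Ω] (Γ₀ : Type)
    [LinearOrderedCommGroupWithZero Γ₀] (v : Valuation Ω Γ₀) (A : Over (Spec (.of F)))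
    [GrpObj A] [IsCommMonObj A] [IsSeparated A.hom] [LocallyOfFiniteType A.hom] (m : ℕ)
    (f : Polynomial (Polynomial Ω)) (h : Polynomial Ω) (δ : PointsOf A (PlaneRing f h))
    (x₀ z₀ x₁ : Ω) (Z₁ : Finset Ω)
    (hfin : ∀ p : ℕ, p.Prime → (p : Ω) = 0 → {P : SpecOver F Ω ⟶ A | P ^ p = 1}.Finite)
    (hm : 1 < m) (hR : Ram m f x₀ z₀) (hh0 : h.eval x₀ ≠ 0) (hh1 : h.eval x₁ ≠ 0)
    (hZ1 : ∀ z, z ∈ Z₁ ↔ (fib f x₁).eval z = 0) (hZc : Z₁.card = m)
    (hne : ∀ O : Finset Ω, O ⊂ Z₁ → O.Nonempty →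
      (∏ z ∈ O, val δ x₁ z) ^ m ≠ (∏ z ∈ Z₁, val δ x₁ z) ^ O.card)
    (R : Type) [CommRing R] [IsDomain R] [Algebra (Polynomial Ω) R] [Algebra Ω R] [Algebra F R]
    [IsScalarTower Ω (Polynomial Ω) R] [IsScalarTower F Ω R] (y : Fin m → R)
    (hinj : Function.Injective (algebraMap (Polynomial Ω) R))
    (hint : Algebra.IsIntegral (Polynomial Ω) R)
    (hy : f.map (algebraMap (Polynomial Ω) R) = ∏ i, (X - C (y i)))
    (had : Algebra.adjoin (Polynomial Ω) (Set.range y) = ⊤) :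
    ∃ c : Ω, c ≠ 0 ∧ ∀ x : Ω, x ≠ x₀ → v (x - x₀) < v c → ∀ Z O : Finset Ω,
      (∀ z, z ∈ Z ↔ (fib f x).eval z = 0) → O ⊂ Z → O.Nonempty → ∀ N : ℕ, N ≠ 0 →
        ((∏ z ∈ O, val δ x z) ^ m) ^ N ≠ ((∏ z ∈ Z, val δ x z) ^ O.card) ^ N := by
  classical
  obtain ⟨hmon, hdeg, hfib0, hsm⟩ := hR
  have hm0 : 0 < m := by omega
  have hC : ∀ a : Ω, algebraMap (Polynomial Ω) R (C a) = algebraMap Ω R a := by
    intro a
    rw [IsScalarTower.algebraMap_apply Ω (Polynomial Ω) R]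
    rfl
  obtain ⟨hH1, hH2⟩ := hHOM Ω m f R y hinj hint hy had
  -- homomorphisms of `Ω`-algebras
  have hlift : ∀ x : Ω, (fib f x).Splits →
      ∃ φ : R →ₐ[Ω] Ω, ∀ p : Polynomial Ω, φ (algebraMap (Polynomial Ω) R p) = p.eval x := by
    intro x hx
    obtain ⟨φ, hφ⟩ := hH1 x hx
    refine ⟨{ φ with commutes' := fun a => ?_ }, hφ⟩
    show φ (algebraMap Ω R a) = a
    rw [← hC, hφ, eval_C]
  have hroot : ∀ (x : Ω) (φ : R →ₐ[Ω] Ω), (∀ p : Polynomial Ω,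
      φ (algebraMap (Polynomial Ω) R p) = p.eval x) → ∀ z, (fib f x).eval z = 0 ↔
        ∃ i, φ (y i) = z := by
    intro x φ hφ z
    exact fib_root f m y hy x (φ : R →+* Ω) hφ z
  have hinjφ : ∀ (x : Ω) (φ : R →ₐ[Ω] Ω), (∀ p : Polynomial Ω,
      φ (algebraMap (Polynomial Ω) R p) = p.eval x) → (fib f x).Separable →
        Function.Injective (fun i => φ (y i)) := by
    intro x φ hφ hs
    exact fib_inj f m y hy x (φ : R →+* Ω) hφ hs
  have hEx := hEVA F Ω A m f h δ R y hy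
  obtain ⟨g, hg⟩ : ∃ g : R, g = algebraMap (Polynomial Ω) R h := ⟨_, rfl⟩
  rw [← hg] at hEx
  obtain ⟨Δ, hΔ⟩ := hEx
  -- the difference
  let D : Finset (Fin m) → (SpecOver F (Localization.Away g) ⟶ A) := fun O =>
    (∏ i ∈ O, Δ i) ^ m * ((∏ i, Δ i) ^ O.card)⁻¹
  have hD : ∀ (O : Finset (Fin m)) (x : Ω) (φ : R →ₐ[Ω] Ω)
      (θ : Localization.Away g →ₐ[F] Ω),
      (∀ p : Polynomial Ω, φ (algebraMap (Polynomial Ω) R p) = p.eval x) →
      (∀ r, θ (algebraMap R (Localization.Away g) r) = φ r) → h.eval x ≠ 0 →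
      specMap θ ≫ D O = (∏ i ∈ O, val δ x (φ (y i))) ^ m *
        ((∏ i, val δ x (φ (y i))) ^ O.card)⁻¹ := by
    intro O x φ θ hφ hθ hx
    have h1 : ∀ i, spc θ (Δ i) = val δ x (φ (y i)) := fun i => (hΔ x φ θ hφ hθ hx i).2
    change spc θ ((∏ i ∈ O, Δ i) ^ m * ((∏ i, Δ i) ^ O.card)⁻¹) = _
    rw [map_mul, map_inv, map_pow, map_pow, map_prod, map_prod]
    simp only [h1]
  -- the two points
  have hsplit0 : (fib f x₀).Splits := by
    rw [hfib0]
    exact (Splits.X_sub_C z₀).pow m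
  obtain ⟨φ₀, hφ₀⟩ := hlift x₀ hsplit0
  have hφ₀y : ∀ i, φ₀ (y i) = z₀ := by
    intro i
    have h1 : (fib f x₀).eval (φ₀ (y i)) = 0 := (hroot x₀ φ₀ hφ₀ _).mpr ⟨i, rfl⟩
    rw [hfib0, eval_pow, eval_sub, eval_X, eval_C] at h1
    exact sub_eq_zero.mp (pow_eq_zero_iff (by omega) |>.mp h1)
  obtain ⟨hsplit1, hsep1⟩ := fib_card f m hmon hdeg x₁ Z₁ hZ1 hZc
  obtain ⟨φ₁, hφ₁⟩ := hlift x₁ hsplit1
  have hφ₁g : φ₁ g ≠ 0 := by
    rw [hg, hφ₁]; exact hh1
  have hφ₀g : φ₀ g ≠ 0 := by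
    rw [hg, hφ₀]; exact hh0
  -- products over a fibre
  have himage : ∀ (x : Ω) (φ : R →ₐ[Ω] Ω), (∀ p : Polynomial Ω,
      φ (algebraMap (Polynomial Ω) R p) = p.eval x) → (fib f x).Separable →
      ∀ O : Finset (Fin m), ∏ i ∈ O, val δ x (φ (y i)) =
        ∏ z ∈ O.image (fun i => φ (y i)), val δ x z := by
    intro x φ hφ hs O
    rw [Finset.prod_image]
    intro i _ j _ hij
    exact hinjφ x φ hφ hs hij
  have hfull : ∀ (x : Ω) (φ : R →ₐ[Ω] Ω), (∀ p : Polynomial Ω,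
      φ (algebraMap (Polynomial Ω) R p) = p.eval x) → ∀ Z : Finset Ω,
      (∀ z, z ∈ Z ↔ (fib f x).eval z = 0) →
      (Finset.univ : Finset (Fin m)).image (fun i => φ (y i)) = Z := by
    intro x φ hφ Z hZ
    ext z
    rw [hZ, hroot x φ hφ, Finset.mem_image]
    constructor
    · rintro ⟨i, -, hi⟩
      exact ⟨i, hi⟩
    · rintro ⟨i, hi⟩
      exact ⟨i, Finset.mem_univ i, hi⟩
  -- the differences are not trivial
  have hD1 : ∀ O : Finset (Fin m), O.Nonempty → O ≠ Finset.univ → D O ≠ 1 := by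
    intro O hO hOu h1
    obtain ⟨θ₁, hθ₁⟩ := exists_theta (F := F) g φ₁ hφ₁g
    have h2 := hD O x₁ φ₁ θ₁ hφ₁ hθ₁ hh1
    rw [h1, MonObj.comp_one, himage x₁ φ₁ hφ₁ hsep1 O, himage x₁ φ₁ hφ₁ hsep1 Finset.univ,
      hfull x₁ φ₁ hφ₁ Z₁ hZ1] at h2
    have h3 := mul_inv_eq_one.mp h2.symm
    have hinj1 := hinjφ x₁ φ₁ hφ₁ hsep1
    have hcard : (O.image (fun i => φ₁ (y i))).card = O.card :=
      Finset.card_image_of_injective O hinj1
    refine hne (O.image (fun i => φ₁ (y i))) ?_ (hO.image _) (by rw [hcard]; exact h3)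
    rw [← hfull x₁ φ₁ hφ₁ Z₁ hZ1]
    rw [Finset.ssubset_iff_subset_ne]
    refine ⟨Finset.image_subset_image (Finset.subset_univ O), ?_⟩
    intro heq
    exact hOu (Finset.image_injective hinj1 heq)
  have hD0 : ∀ (O : Finset (Fin m)) (θ : Localization.Away g →ₐ[F] Ω),
      (∀ r, θ (algebraMap R (Localization.Away g) r) = φ₀ r) → specMap θ ≫ D O = 1 := by
    intro O θ hθ
    rw [hD O x₀ φ₀ θ hφ₀ hθ hh0]
    simp only [hφ₀y, Finset.prod_const, Finset.card_univ, Fintype.card_fin]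
    rw [← pow_mul, ← pow_mul, mul_comm m O.card]
    exact mul_inv_cancel _
  -- coordinates
  let u : Option (Fin m) → R := fun o => match o with
    | none => algebraMap (Polynomial Ω) R (X - C x₀)
    | some i => y i - algebraMap Ω R z₀
  have hu0 : u none = algebraMap (Polynomial Ω) R (X - C x₀) := rfl
  have hu1 : ∀ i, u (some i) = y i - algebraMap Ω R z₀ := fun i => rfl
  have hau := adjoin_u m x₀ z₀ R y had u hu0 hu1
  have hφ₀u : ∀ o, φ₀ (u o) = 0 := by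
    intro o
    rcases o with _ | i
    · rw [hu0, hφ₀, eval_sub, eval_X, eval_C, sub_self]
    · rw [hu1, map_sub, hφ₀y, AlgHom.commutes]
      exact sub_self _
  have hex : ∀ O : Finset (Fin m), ∃ (d : Ω) (a : R), d ≠ 0 ∧ a ≠ 0 ∧
      (O.Nonempty → O ≠ Finset.univ →
      ∀ φ : R →ₐ[Ω] Ω, (∀ i, v (φ (u i)) < v d) → φ a ≠ 0 →
      ∀ θ : Localization.Away g →ₐ[F] Ω, (∀ r, θ (algebraMap R (Localization.Away g) r) = φ r) →
        ∀ N : ℕ, N ≠ 0 → (specMap θ ≫ D O) ^ N ≠ 1) := by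
    intro O
    by_cases hO : O.Nonempty ∧ O ≠ Finset.univ
    · obtain ⟨d, a, hd, ha, hda⟩ := hNTR F Ω Γ₀ v A R (Option (Fin m)) u g φ₀ (D O) hfin hau hφ₀u
        hφ₀g (hD0 O) (hD1 O hO.1 hO.2)
      exact ⟨d, a, hd, ha, fun _ _ => hda⟩
    · exact ⟨1, 1, one_ne_zero, one_ne_zero, fun h1 h2 => absurd ⟨h1, h2⟩ hO⟩
  choose d a hd ha hda using hex
  obtain ⟨O₀, -, hO₀⟩ := Finset.exists_min_image (Finset.univ : Finset (Finset (Fin m)))
    (fun O => v (d O)) Finset.univ_nonempty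
  have ha0 : (∏ O, a O) ≠ 0 := Finset.prod_ne_zero_iff.mpr fun O _ => ha O
  obtain ⟨P, hP0, hP⟩ := hH2 _ ha0
  obtain ⟨c₁, hc₁, hc₁'⟩ := hNEA Ω Γ₀ v m f x₀ z₀ (d O₀) hm0 ⟨hmon, hdeg, hfib0, hsm⟩ (hd O₀)
  have hfpos : 0 < f.natDegree := by omega
  have hdisc1 := (hDSC.1 Ω f hmon hfpos).1
  have hdisc : f.discr ≠ 0 := by
    intro h0
    have h1 := (hdisc1 x₁).mpr hsep1
    rw [h0, eval_zero] at h1
    exact h1 rfl
  have hhne : h ≠ 0 := by
    intro h0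
    rw [h0, eval_zero] at hh0
    exact hh0 rfl
  obtain ⟨c₂, hc₂, hc₂'⟩ := Pool.H27.LG.exists_nonzero_near v (P * h * f.discr)
    (mul_ne_zero (mul_ne_zero hP0 hhne) hdisc) x₀
  obtain ⟨c, hc, hcc₁, hcc₂⟩ : ∃ c : Ω, c ≠ 0 ∧ v c ≤ v c₁ ∧ v c ≤ v c₂ := by
    rcases le_total (v c₁) (v c₂) with h1 | h1
    · exact ⟨c₁, hc₁, le_rfl, h1⟩
    · exact ⟨c₂, hc₂, h1, le_rfl⟩
  refine ⟨c, hc, ?_⟩
  intro x hx hvx Z O' hZ hO' hO'ne N hN heq
  have h1 := hc₂' x hx (lt_of_lt_of_le hvx hcc₂)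
  rw [eval_mul, eval_mul] at h1
  have hPx : P.eval x ≠ 0 := fun h0 => h1 (by rw [h0, zero_mul, zero_mul])
  have hhx : h.eval x ≠ 0 := fun h0 => h1 (by rw [h0, mul_zero, zero_mul])
  have hdx : f.discr.eval x ≠ 0 := fun h0 => h1 (by rw [h0, mul_zero])
  have hsep := (hdisc1 x).mp hdx
  obtain ⟨φ, hφ⟩ := hlift x (IsSepClosed.splits_of_separable _ hsep)
  have hφa : φ (∏ O, a O) ≠ 0 := fun h0 => hPx (hP x (φ : R →+* Ω) hφ h0)
  have hφg : φ g ≠ 0 := by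
    rw [hg, hφ]; exact hhx
  obtain ⟨θ, hθ⟩ := exists_theta (F := F) g φ hφg
  have hinjx := hinjφ x φ hφ hsep
  have hZimg := hfull x φ hφ Z hZ
  let O : Finset (Fin m) := Finset.univ.filter (fun i => φ (y i) ∈ O')
  have hOimg : O.image (fun i => φ (y i)) = O' := by
    ext z
    rw [Finset.mem_image]
    constructor
    · rintro ⟨i, hi, rfl⟩
      exact (Finset.mem_filter.mp hi).2
    · intro hz
      have h2 : z ∈ Z := hO'.1 hz
      rw [hZ, hroot x φ hφ] at h2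
      obtain ⟨i, hi⟩ := h2
      exact ⟨i, Finset.mem_filter.mpr ⟨Finset.mem_univ i, by rw [hi]; exact hz⟩, hi⟩
  have hOne : O.Nonempty := by
    have h2 : (O.image (fun i => φ (y i))).Nonempty := by
      rw [hOimg]; exact hO'ne
    exact Finset.image_nonempty.mp h2
  have hOu : O ≠ Finset.univ := by
    intro h2
    rw [h2, hZimg] at hOimg
    exact hO'.ne hOimg.symm
  have hcard : O'.card = O.card := by
    rw [← hOimg]
    exact Finset.card_image_of_injective O hinjx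
  have hφaO : φ (a O) ≠ 0 := by
    rw [map_prod] at hφa
    exact (Finset.prod_ne_zero_iff.mp hφa) O (Finset.mem_univ O)
  have hnear : ∀ i, v (φ (u i)) < v (d O) := by
    have h2 : v (d O₀) ≤ v (d O) := hO₀ O (Finset.mem_univ O)
    intro o
    refine lt_of_lt_of_le ?_ h2
    rcases o with _ | i
    · rw [hu0, hφ, eval_sub, eval_X, eval_C]
      exact (hc₁' x (φ (y ⟨0, hm0⟩)) ((hroot x φ hφ _).mpr ⟨_, rfl⟩)
        (lt_of_lt_of_le hvx hcc₁)).1
    · rw [hu1, map_sub, AlgHom.commutes]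
      exact (hc₁' x (φ (y i)) ((hroot x φ hφ _).mpr ⟨i, rfl⟩) (lt_of_lt_of_le hvx hcc₁)).2
  refine hda O hOne hOu φ hnear hφaO θ hθ N hN ?_
  rw [hD O x φ θ hφ hθ hhx, himage x φ hφ hsep O, himage x φ hφ hsep Finset.univ, hOimg, hZimg,
    ← hcard, mul_pow, inv_pow, heq]
  exact mul_inv_cancel _

/-- NTF. -/
theorem pf_NTF (hDSC : T_DSC) (hSPL : T_SPL) (hHOM : T_HOM) (hEVA : T_EVA) (hNTR : T_NTR)
    (hNEA : T_NEA) : T_NTF := by
  intro F Ω _ _ _ _ Γ₀ _ v A _ _ _ _ m f h δ x₀ z₀ x₁ Z₁ hfin hm hR hh0 hh1 hZ1 hZc hne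
  obtain ⟨R, iR, iD, iA, y, hinj, hint, hy, had⟩ := hSPL Ω m f hR.monic hR.deg
  let _ : Algebra Ω R := ((algebraMap (Polynomial Ω) R).comp C).toAlgebra
  let _ : Algebra F R := ((algebraMap Ω R).comp (algebraMap F Ω)).toAlgebra
  have : IsScalarTower Ω (Polynomial Ω) R := IsScalarTower.of_algebraMap_eq fun _ => rfl
  have : IsScalarTower F Ω R := IsScalarTower.of_algebraMap_eq fun _ => rfl
  exact ntf_main hDSC hHOM hEVA hNTR hNEA F Ω Γ₀ v A m f h δ x₀ z₀ x₁ Z₁ hfin hm hR hh0 hh1 hZ1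
    hZc hne R y hinj hint hy had

end Pool.Agent.H20.LAR
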