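import Pool.Agent.H29.LA.Targets
import Pool.Agent.H25.LS.Trace
import Pool.Agent.H23.Rank

/-! MP_6b5a9a_nt: board lar_modules, row TRC. -/

set_option autoImplicit false

open TensorProduct
open Pool.Agent.H29.LA

namespace Pool.Agent.H20.LAR

/-- TRC. -/
theorem pf_TRC : T_TRC := by
  classical
  intro F Ω _ _ _ _ Γ A _ _ hdisc hfin
  obtain ⟨T, hT⟩ := Pool.Agent.H23.exists_finset_of_finite _ hfin
  choose E hE hEfix using hdisc
  refine ⟨⨆ t ∈ T, E (t : A),
    IntermediateField.finiteDimensional_iSup_of_finset' fun t _ => hE t, ?_⟩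
  intro M _ _ hEM a ha
  have hTM : ∀ t ∈ T, E (t : A) ≤ M := fun t ht => (le_iSup₂_of_le t ht le_rfl).trans hEM
  let res : (Ω ≃ₐ[F] Ω) →* (M ≃ₐ[F] M) := AlgEquiv.restrictNormalHom M
  have hres : ∀ (γ : Ω ≃ₐ[F] Ω) (m : M), ((res γ m : M) : Ω) = γ m := fun γ m =>
    AlgEquiv.restrictNormalHom_apply M γ m
  set K : Subgroup Γ := (res.comp Γ.subtype).ker with hK
  have hKmem : ∀ γ : Γ, γ ∈ K ↔ (γ : Ω ≃ₐ[F] Ω) ∈ M.fixingSubgroup := by
    intro γ
    rw [hK, MonoidHom.mem_ker, IntermediateField.mem_fixingSubgroup_iff]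
    constructor
    · intro h z hz
      have h1 := hres (γ : Ω ≃ₐ[F] Ω) ⟨z, hz⟩
      have h' : res (γ : Ω ≃ₐ[F] Ω) = 1 := h
      rw [h'] at h1
      exact h1.symm
    · intro h
      change res (γ : Ω ≃ₐ[F] Ω) = 1
      ext m
      rw [hres, h m m.2]
      rfl
  have hKfin : Finite (Γ ⧸ K) :=
    Finite.of_equiv _ (QuotientGroup.quotientKerEquivRange (res.comp Γ.subtype)).symm.toEquiv
  have : Fintype (Γ ⧸ K) := Fintype.ofFinite _
  have haK : ∀ k ∈ K, k • a = a := by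
    intro k hk
    exact ha k k.2 ((hKmem k).1 hk)
  obtain ⟨Tr, hTr, hTrinv⟩ := Pool.Agent.H25.LS.exists_trace K a haK
  obtain ⟨n, hn0, hn⟩ := hT ⟨∑ q, Tr q, fun γ => hTrinv γ⟩
  refine ⟨n, hn0, ?_⟩
  intro τ hτM hτ
  have hfixT : ∀ b ∈ AddSubgroup.closure (T : Set (FixedPoints.addSubgroup Γ A)),
      τ • (b : A) = b := by
    intro b hb
    induction hb using AddSubgroup.closure_induction with
    | mem t ht =>
      apply hEfix (t : A) τ
      rw [IntermediateField.mem_fixingSubgroup_iff]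
      intro z hz
      exact (IntermediateField.mem_fixingSubgroup_iff _ τ).1 hτM z (hTM t ht hz)
    | zero => exact smul_zero _
    | add b₁ b₂ _ _ h₁ h₂ =>
      change τ • ((b₁ : A) + (b₂ : A)) = (b₁ : A) + (b₂ : A)
      rw [smul_add, h₁, h₂]
    | neg b _ h =>
      change τ • (-(b : A)) = -(b : A)
      rw [smul_neg, h]
  have hTrτ : τ • (∑ q, Tr q) = (∑ q, Tr q) - a + τ • a := by
    have h1 : ∀ q : Γ ⧸ K, q ≠ ((1 : Γ) : Γ ⧸ K) → τ • Tr q = Tr q := by
      intro q hq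
      obtain ⟨γ, rfl⟩ := QuotientGroup.mk_surjective q
      rw [hTr]
      refine hτ (γ : Ω ≃ₐ[F] Ω) γ.2 ?_
      intro hcon
      apply hq
      have h2 : γ ∈ K := (hKmem γ).2 hcon
      exact (QuotientGroup.eq.2 (by simpa using h2)).symm
    have h2 : Tr ((1 : Γ) : Γ ⧸ K) = a := by rw [hTr, one_smul]
    rw [Finset.smul_sum, ← Finset.add_sum_erase Finset.univ (fun q => τ • Tr q)
      (Finset.mem_univ ((1 : Γ) : Γ ⧸ K)), ← Finset.add_sum_erase Finset.univ Tr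
      (Finset.mem_univ ((1 : Γ) : Γ ⧸ K)), h2, Finset.sum_congr rfl fun q hq =>
      h1 q (Finset.ne_of_mem_erase hq)]
    abel
  have hnTr : n • (τ • (∑ q, Tr q)) = n • (∑ q, Tr q) := by
    have h1 := hfixT _ hn
    have h2 : ((n • (⟨∑ q, Tr q, fun γ => hTrinv γ⟩ : FixedPoints.addSubgroup Γ A) :
      FixedPoints.addSubgroup Γ A) : A) = n • ∑ q, Tr q := rfl
    rw [h2, smul_comm] at h1
    exact h1
  rw [hTrτ, smul_add, smul_sub] at hnTr
  have h1 : n • (∑ q, Tr q) - n • a + n • (τ • a) - n • (∑ q, Tr q) = 0 := by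
    rw [hnTr, sub_self]
  have h2 : n • (τ • a) - n • a = 0 := by
    rw [← h1]; abel
  exact sub_eq_zero.1 h2

end Pool.Agent.H20.LAR
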