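import Pool.Agent.H29.LA.Targets

/-! MP_6b5a9a_nt: board lar_modules, row UNR. -/

set_option autoImplicit false

open Polynomial
open Pool.Agent.H29.LA

namespace Pool.Agent.H20.LAR

section

variable {K Ω : Type} [Field K] [Field Ω] [Algebra K Ω] {Γ₀ : Type}
    [LinearOrderedCommGroupWithZero Γ₀] (V : Valuation Ω Γ₀)

theorem unr_mlt1 {a b : Γ₀} (ha : a ≤ 1) (hb : b < 1) : a * b < 1 :=
  lt_of_le_of_lt (mul_le_of_le_one_left' ha) hb

theorem unr_mlt2 {a b : Γ₀} (ha : a < 1) (hb : b ≤ 1) : a * b < 1 :=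
  lt_of_le_of_lt (mul_le_of_le_one_right' hb) ha

/-- the valuation ring of `K` -/
def oK (V : Valuation Ω Γ₀) : Subring K := (V.comap (algebraMap K Ω)).integer

theorem mem_oK (a : K) : a ∈ oK (K := K) V ↔ V (algebraMap K Ω a) ≤ 1 := Iff.rfl

/-- evaluation at `u` -/
noncomputable def evu (u : Ω) : (oK (K := K) V)[X] →+* Ω :=
  eval₂RingHom ((algebraMap K Ω).comp (oK (K := K) V).subtype) u

theorem evu_C (u : Ω) (a : oK (K := K) V) : evu V u (C a) = algebraMap K Ω (a : K) := by
  unfold evu
  rw [coe_eval₂RingHom, eval₂_C]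
  rfl

theorem evu_X (u : Ω) : evu (K := K) V u X = u := by
  unfold evu
  rw [coe_eval₂RingHom, eval₂_X]

theorem evu_le (u : Ω) (hu : V u ≤ 1) (a : (oK (K := K) V)[X]) : V (evu V u a) ≤ 1 := by
  induction a using Polynomial.induction_on' with
  | add p q hp hq =>
    rw [map_add]
    exact (V.map_add _ _).trans (max_le hp hq)
  | monomial n a =>
    rw [← C_mul_X_pow_eq_monomial, map_mul, map_pow, evu_C, evu_X, map_mul, map_pow]
    exact mul_le_one' a.2 (pow_le_one' hu n)

theorem evu_map (u : Ω) (a : (oK (K := K) V)[X]) :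
    evu V u a = aeval u (a.map (oK (K := K) V).subtype) := by
  unfold evu
  rw [coe_eval₂RingHom, aeval_def, eval₂_map]

/-- a polynomial of small degree with a small value is small -/
theorem coeff_lt (u : Ω) (hu : V u ≤ 1) (d : WithBot ℕ)
    (hmin : ∀ q : (oK (K := K) V)[X], q.Monic → V (evu V u q) < 1 → d ≤ q.degree)
    (n : ℕ) : ∀ r : (oK (K := K) V)[X], r.support.card = n → r.degree < d →
      V (evu V u r) < 1 → ∀ i, V (algebraMap K Ω (r.coeff i : K)) < 1 := by
  induction n using Nat.strong_induction_on with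
  | _ n ih =>
    intro r hcard hdeg hr
    by_cases h0 : r = 0
    · intro i
      rw [h0, coeff_zero]
      show V (algebraMap K Ω (0 : K)) < 1
      rw [map_zero, map_zero]
      exact zero_lt_one
    have hlead : V (algebraMap K Ω (r.leadingCoeff : K)) < 1 := by
      by_contra hge
      have h1 : V (algebraMap K Ω (r.leadingCoeff : K)) = 1 :=
        le_antisymm r.leadingCoeff.2 (not_lt.mp hge)
      have hlc0 : (r.leadingCoeff : K) ≠ 0 := by
        intro h
        rw [h, map_zero, map_zero] at h1
        exact zero_ne_one h1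
      let c : oK (K := K) V := ⟨(r.leadingCoeff : K)⁻¹, by
        rw [mem_oK, map_inv₀, map_inv₀, h1, inv_one]⟩
      have hc : c * r.leadingCoeff = 1 := by
        apply Subtype.ext
        show (r.leadingCoeff : K)⁻¹ * (r.leadingCoeff : K) = 1
        exact inv_mul_cancel₀ hlc0
      have hmon : (C c * r).Monic := by
        unfold Polynomial.Monic
        rw [leadingCoeff_mul' (by rw [leadingCoeff_C, hc]; exact one_ne_zero), leadingCoeff_C, hc]
      have hval : V (evu V u (C c * r)) < 1 := by
        rw [map_mul, map_mul]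
        exact unr_mlt1 (evu_le V u hu _) hr
      have h2 := hmin _ hmon hval
      have h3 : (C c * r).degree ≤ r.degree := by
        rw [← smul_eq_C_mul]
        exact degree_smul_le _ _
      exact absurd (h2.trans h3) (not_le.mpr hdeg)
    have hel : r.eraseLead + monomial r.natDegree r.leadingCoeff = r :=
      eraseLead_add_monomial_natDegree_leadingCoeff r
    have hmono : V (evu V u (monomial r.natDegree r.leadingCoeff)) < 1 := by
      rw [← C_mul_X_pow_eq_monomial, map_mul, map_pow, evu_C, evu_X, map_mul, map_pow]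
      exact unr_mlt2 hlead (pow_le_one' hu _)
    have herase : V (evu V u r.eraseLead) < 1 := by
      have h4 : evu V u r.eraseLead = evu V u r - evu V u (monomial r.natDegree r.leadingCoeff) := by
        rw [← map_sub]
        rw [eq_sub_of_add_eq hel]
      rw [h4]
      exact lt_of_le_of_lt (V.map_sub _ _) (max_lt hr hmono)
    have hd : r.eraseLead.degree < d := lt_of_le_of_lt (eraseLead_degree_le) hdeg
    have key := ih r.eraseLead.support.card (by
      rw [← hcard]; exact eraseLead_support_card_lt h0) r.eraseLead rfl hd herase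
    intro i
    by_cases hi : i = r.natDegree
    · rw [hi]
      exact hlead
    · have h5 := key i
      rw [eraseLead_coeff_of_ne _ hi] at h5
      exact h5

/-- UNR. -/
theorem pf_UNR : T_UNR := by
  classical
  intro K Ω _ _ _ Γ₀ _ V π u G hπ0 hπ1 hPw hG hGc hGu hGd
  have hV0 : V (algebraMap K Ω π) ≠ 0 := ne_of_gt hπ0
  have hπK : π ≠ 0 := by
    rintro rfl
    rw [map_zero, map_zero] at hV0
    exact hV0 rfl
  have hπΩ : algebraMap K Ω π ≠ 0 := by
    intro h
    rw [h, map_zero] at hV0
    exact hV0 rfl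
  set c : Γ₀ := V (algebraMap K Ω π) with hc
  let O : Subring K := oK (K := K) V
  -- lift of `G`
  have hsub : (↑G.coeffs : Set K) ⊆ O := by
    intro a ha
    rw [Finset.mem_coe, mem_coeffs_iff] at ha
    obtain ⟨n, -, rfl⟩ := ha
    exact hGc n
  obtain ⟨g, hg⟩ : ∃ g : O[X], g = G.toSubring O hsub := ⟨_, rfl⟩
  have hgm : g.Monic := by
    rw [hg]
    exact (monic_toSubring G O hsub).mpr hG
  have hgmap : g.map O.subtype = G := by
    ext n
    rw [coeff_map, hg]
    exact coeff_toSubring G O hsub
  have hgu : evu V u g = 0 := by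
    rw [evu_map, hgmap, hGu]
  have hgd : V (evu V u (derivative g)) = 1 := by
    rw [evu_map, ← derivative_map, hgmap, hGd]
  -- `u` is integral
  have hu : V u ≤ 1 := by
    have hint : IsIntegral V.integer u := by
      let j : O →+* V.integer :=
        ((algebraMap K Ω).comp O.subtype).codRestrict V.integer (fun a => a.2)
      refine ⟨g.map j, hgm.map j, ?_⟩
      rw [eval₂_map]
      exact hgu
    exact Valuation.Integers.mem_of_integral (Valuation.integer.integers V) hint
  have hle := fun a : O[X] => evu_le (K := K) V u hu a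
  -- the polynomial `p`
  have hex : ∃ n : ℕ, ∃ q : O[X], q.Monic ∧ V (evu V u q) < 1 ∧ q.natDegree = n :=
    ⟨g.natDegree, g, hgm, by rw [hgu, map_zero]; exact zero_lt_one, rfl⟩
  obtain ⟨p, hpm, hp1, hpn⟩ := Nat.find_spec hex
  have hmin : ∀ q : O[X], q.Monic → V (evu V u q) < 1 → p.degree ≤ q.degree := by
    intro q hq hq1
    rw [degree_eq_natDegree hpm.ne_zero, degree_eq_natDegree hq.ne_zero, hpn, Nat.cast_le]
    exact Nat.find_min' hex ⟨q, hq, hq1, rfl⟩
  let πO : O := ⟨π, hπ1.le⟩
  have hdiv : ∀ a : O[X], V (evu V u a) < 1 → ∃ q r : O[X], a = p * q + C πO * r := by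
    intro a ha
    have h1 : a %ₘ p + p * (a /ₘ p) = a := modByMonic_add_div a p
    have h2 : V (evu V u (a %ₘ p)) < 1 := by
      have h3 : evu V u (a %ₘ p) = evu V u a - evu V u p * evu V u (a /ₘ p) := by
        rw [← map_mul, ← map_sub]
        rw [eq_sub_of_add_eq h1]
      rw [h3]
      refine lt_of_le_of_lt (V.map_sub _ _) (max_lt ha ?_)
      rw [map_mul]
      exact unr_mlt2 hp1 (hle _)
    have hdeg : (a %ₘ p).degree < p.degree := degree_modByMonic_lt a hpm
    have h4 := coeff_lt V u hu p.degree hmin _ (a %ₘ p) rfl hdeg h2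
    have h5 : C πO ∣ a %ₘ p := by
      rw [C_dvd_iff_dvd_coeff]
      intro i
      by_cases hi : ((a %ₘ p).coeff i : K) = 0
      · have : (a %ₘ p).coeff i = 0 := Subtype.ext hi
        rw [this]
        exact dvd_zero _
      · obtain ⟨n, hn⟩ := hPw _ hi
        have h6 : c ^ n < 1 := by
          rw [← hn]; exact h4 i
        have h7 : 0 < n := by
          by_contra hneg
          push Not at hneg
          have h8 : 1 ≤ c ^ n := by
            rw [← zpow_zero c]
            exact zpow_le_zpow_right_of_le_one₀ hπ0 hπ1.le hneg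
          exact absurd h8 (not_le.mpr h6)
        refine ⟨⟨π⁻¹ * ((a %ₘ p).coeff i : K), ?_⟩, ?_⟩
        · rw [mem_oK, map_mul, map_mul, map_inv₀, map_inv₀, hn]
          have h9 : c⁻¹ * c ^ n = c ^ (n - 1) := by
            rw [zpow_sub_one₀ hV0, mul_comm]
          rw [h9, ← zpow_zero c]
          exact zpow_le_zpow_right_of_le_one₀ hπ0 hπ1.le (by omega)
        · apply Subtype.ext
          show ((a %ₘ p).coeff i : K) = π * (π⁻¹ * ((a %ₘ p).coeff i : K))
          rw [mul_inv_cancel_left₀ hπK]
    obtain ⟨r, hr⟩ := h5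
    refine ⟨a /ₘ p, r, ?_⟩
    rw [← hr, add_comm]
    exact h1.symm
  obtain ⟨s, R, hgs⟩ := hdiv g (by rw [hgu, map_zero]; exact zero_lt_one)
  have hevπ : evu V u (C πO) = algebraMap K Ω π := evu_C V u πO
  have hs1 : V (evu V u s) = 1 := by
    have h1 : derivative g = derivative p * s + p * derivative s + C πO * derivative R := by
      rw [hgs, derivative_add, derivative_mul, derivative_C_mul]
    have hev : evu V u (derivative g) = evu V u (derivative p) * evu V u s +
        evu V u p * evu V u (derivative s) + algebraMap K Ω π * evu V u (derivative R) := by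
      rw [h1, map_add, map_add, map_mul, map_mul, map_mul, hevπ]
    rw [hev] at hgd
    refine le_antisymm (hle s) ?_
    by_contra hlt
    push Not at hlt
    have h2 : V (evu V u (derivative p) * evu V u s + evu V u p * evu V u (derivative s) +
        algebraMap K Ω π * evu V u (derivative R)) < 1 := by
      refine lt_of_le_of_lt (V.map_add _ _) (max_lt (lt_of_le_of_lt (V.map_add _ _)
        (max_lt ?_ ?_)) ?_)
      · rw [map_mul]
        exact unr_mlt1 (hle _) hlt
      · rw [map_mul]
        exact unr_mlt2 hp1 (hle _)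
      · rw [map_mul]
        exact unr_mlt2 hπ1 (hle _)
    rw [hgd] at h2
    exact lt_irrefl _ h2
  have hs0 : evu V u s ≠ 0 := by
    intro h
    rw [h, map_zero] at hs1
    exact zero_ne_one hs1
  have hpR : evu V u p * evu V u s = -(algebraMap K Ω π * evu V u R) := by
    have h1 : evu V u p * evu V u s + algebraMap K Ω π * evu V u R = 0 := by
      rw [← hevπ, ← map_mul, ← map_mul, ← map_add, ← hgs, hgu]
    exact eq_neg_of_add_eq_zero_left h1
  have hstep : ∀ a : O[X], V (evu V u a) < 1 → ∃ a' : O[X],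
      V (evu V u a) = c * V (evu V u a') := by
    intro a ha
    obtain ⟨q, r, hqr⟩ := hdiv a ha
    refine ⟨r * s - R * q, ?_⟩
    have h1 : evu V u a * evu V u s = algebraMap K Ω π * evu V u (r * s - R * q) := by
      rw [hqr, map_add, map_mul, map_mul, hevπ, map_sub, map_mul, map_mul]
      linear_combination evu V u q * hpR
    have h2 := congrArg V h1
    rw [map_mul, hs1, mul_one, map_mul] at h2
    exact h2
  have hpow : ∀ N : ℕ, ∀ a : O[X], c ^ N ≤ V (evu V u a) → ∃ n : ℕ, V (evu V u a) = c ^ n := by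
    intro N
    induction N with
    | zero =>
      intro a ha
      refine ⟨0, ?_⟩
      rw [pow_zero] at ha ⊢
      exact le_antisymm (hle a) ha
    | succ N ih =>
      intro a ha
      by_cases h1 : V (evu V u a) < 1
      · obtain ⟨a', ha'⟩ := hstep a h1
        have h2 : c ^ N ≤ V (evu V u a') := by
          rw [ha', pow_succ'] at ha
          exact le_of_mul_le_mul_left ha hπ0
        obtain ⟨n, hn⟩ := ih a' h2
        exact ⟨n + 1, by rw [ha', hn, pow_succ']⟩
      · exact ⟨0, by rw [pow_zero]; exact le_antisymm (hle a) (not_lt.mp h1)⟩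
  -- clearing denominators
  have hclear : ∀ q : K[X], ∃ (M : ℕ) (a : O[X]),
      evu V u a = algebraMap K Ω π ^ M * aeval u q := by
    intro q
    induction q using Polynomial.induction_on' with
    | add p q hp hq =>
      obtain ⟨M₁, a₁, h₁⟩ := hp
      obtain ⟨M₂, a₂, h₂⟩ := hq
      refine ⟨M₁ + M₂, C πO ^ M₂ * a₁ + C πO ^ M₁ * a₂, ?_⟩
      rw [map_add, map_mul, map_mul, map_pow, map_pow, hevπ, h₁, h₂, map_add, pow_add]
      ring
    | monomial n x =>
      have hx : ∃ M : ℕ, π ^ M * x ∈ O := by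
        by_cases hx0 : x = 0
        · exact ⟨0, by rw [hx0, mul_zero]; exact O.zero_mem⟩
        · obtain ⟨k, hk⟩ := hPw x hx0
          refine ⟨(-k).toNat, ?_⟩
          show V (algebraMap K Ω (π ^ (-k).toNat * x)) ≤ 1
          rw [map_mul, map_pow, map_mul, map_pow, hk, ← hc, ← zpow_natCast, ← zpow_add₀ hV0,
            ← zpow_zero c]
          refine zpow_le_zpow_right_of_le_one₀ hπ0 hπ1.le ?_
          have := Int.self_le_toNat (-k)
          omega
      obtain ⟨M, hM⟩ := hx
      refine ⟨M, monomial n ⟨π ^ M * x, hM⟩, ?_⟩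
      rw [aeval_monomial, ← C_mul_X_pow_eq_monomial, map_mul, map_pow, evu_C, evu_X]
      show algebraMap K Ω (π ^ M * x) * u ^ n = _
      rw [map_mul, map_pow]
      ring
  -- the elements of the extension
  have hui : IsIntegral K u := ⟨G, hG, by rw [← aeval_def]; exact hGu⟩
  have hrep : ∀ b : IntermediateField.adjoin K ({u} : Set Ω), ∃ q : K[X], (b : Ω) = aeval u q := by
    intro b
    have h1 : (b : Ω) ∈ (IntermediateField.adjoin K ({u} : Set Ω)).toSubalgebra := b.2
    rw [IntermediateField.adjoin_simple_toSubalgebra_of_isAlgebraic hui.isAlgebraic,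
      Algebra.adjoin_singleton_eq_range_aeval] at h1
    obtain ⟨q, hq⟩ := h1
    exact ⟨q, hq.symm⟩
  intro b hb
  obtain ⟨q, hq⟩ := hrep b
  obtain ⟨q', hq'⟩ := hrep b⁻¹
  obtain ⟨M, a, ha⟩ := hclear q
  obtain ⟨M', a', ha'⟩ := hclear q'
  have hb0 : (b : Ω) ≠ 0 := fun h => hb (Subtype.ext h)
  have h1 : c ^ M' ≤ V (b : Ω) := by
    have h2 := hle a'
    have h3 : ((b⁻¹ : IntermediateField.adjoin K ({u} : Set Ω)) : Ω) = (b : Ω)⁻¹ := rfl
    rw [ha', ← hq', h3, map_mul, map_pow, map_inv₀] at h2
    have h4 : 0 < V (b : Ω) := (Valuation.pos_iff V).mpr hb0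
    rwa [← div_eq_mul_inv, div_le_one₀ h4] at h2
  have h2 : c ^ (M + M') ≤ V (evu V u a) := by
    rw [ha, ← hq, map_mul, map_pow, pow_add]
    exact mul_le_mul' le_rfl h1
  obtain ⟨n, hn⟩ := hpow _ a h2
  refine ⟨(n : ℤ) - M, ?_⟩
  have h3 : V (algebraMap (IntermediateField.adjoin K ({u} : Set Ω)) Ω b) = V (b : Ω) := rfl
  rw [h3]
  rw [ha, ← hq, map_mul, map_pow] at hn
  rw [zpow_sub₀ hV0, zpow_natCast, zpow_natCast, eq_div_iff (pow_ne_zero _ hV0), ← hn, mul_comm]

end

end Pool.Agent.H20.LAR
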